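import Mathlib

/-! Irreducible factors of the parameter polynomials `P_{n,α}(λ) - β` of `z ^ d + λ` over a finite
field: the question holds when one prime divides all the orders of `q` modulo the primes `l ≠ p`
of `d`, in particular when `d` has one prime factor other than `p`. -/

set_option autoImplicit false

namespace Pool.Agent.Results.MP_705328_nt.PrimePowerDegree

open Polynomial

/-- `P d α n = f_λ^n(α)` as a polynomial in `λ`, where `f_λ(z) = z ^ d + λ`:
`P_0 = α`, `P_{n+1} = P_n ^ d + λ` (so `P_1 = α ^ d + λ`). -/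
noncomputable def P {F : Type*} [Field F] (d : ℕ) (α : F) : ℕ → F[X]
  | 0 => C α
  | n + 1 => P d α n ^ d + X

theorem aeval_P {F K : Type*} [Field F] [Field K] [Algebra F K] (d : ℕ) (α : F) (l : K) (n : ℕ) :
    aeval l (P d α n) = (fun z : K => z ^ d + l)^[n] (algebraMap F K α) := by
  induction n with
  | zero => simp [P]
  | succ n ih => simp [P, Function.iterate_succ_apply', ih]

theorem iter_id {K : Type*} [Field K] [Finite K] (d : ℕ) (hd : d ≠ 0)
    (hc : Nat.Coprime d (Nat.card K - 1)) (l z : K) (n : ℕ) (hn : (Nat.card K).factorial ∣ n) :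
    (fun z : K => z ^ d + l)^[n] z = z := by
  classical
  have hinj : Function.Injective (fun z : K => z ^ d + l) := by
    intro a b hab
    have h : a ^ d = b ^ d := add_right_cancel hab
    by_cases ha : a = 0
    · subst ha
      rw [zero_pow hd] at h
      exact ((pow_eq_zero_iff hd).1 h.symm).symm
    by_cases hb : b = 0
    · subst hb
      rw [zero_pow hd] at h
      exact (pow_eq_zero_iff hd).1 h
    have hc' : (Nat.card Kˣ).Coprime d := by rw [Nat.card_units]; exact hc.symm
    have := (powCoprime hc').injective (a₁ := Units.mk0 a ha) (a₂ := Units.mk0 b hb) (by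
      apply Units.ext
      simpa [powCoprime] using h)
    simpa using congrArg Units.val this
  let e : Equiv.Perm K := Equiv.ofBijective _ (Finite.injective_iff_bijective.1 hinj)
  have he : e ^ n = 1 := by
    obtain ⟨t, rfl⟩ := hn
    rw [pow_mul, ← Nat.card_perm, pow_card_eq_one', one_pow]
  have h2 : (fun z : K => z ^ d + l)^[n] z = (e ^ n) z := by
    rw [Equiv.Perm.coe_pow]; rfl
  rw [h2, he]; rfl

theorem natDegree_P {F : Type*} [Field F] (d : ℕ) (hd : 2 ≤ d) (α : F) (n : ℕ) :
    (P d α (n + 1)).natDegree = d ^ n := by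
  induction n with
  | zero =>
    simp only [P, pow_zero]
    rw [← C_pow, add_comm, natDegree_X_add_C]
  | succ n ih =>
    have h1 : (P d α (n + 1) ^ d).natDegree = d ^ (n + 1) := by
      rw [natDegree_pow, ih, pow_succ, mul_comm]
    have h2 : 1 < d ^ (n + 1) := Nat.one_lt_pow (by omega) (by omega)
    show (P d α (n + 1) ^ d + X).natDegree = _
    rw [natDegree_add_eq_left_of_natDegree_lt (by rw [h1, natDegree_X]; exact h2), h1]

theorem exists_factor {F : Type*} [Field F] (r : ℕ) (Q : F[X]) (h : ¬ r ∣ Q.natDegree) :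
    ∃ g : F[X], Irreducible g ∧ g ∣ Q ∧ ¬ r ∣ g.natDegree := by
  induction Q using WfDvdMonoid.induction_on_irreducible with
  | zero => simp at h
  | unit u hu => rw [natDegree_eq_zero_of_isUnit hu] at h; simp at h
  | mul a i ha hi ih =>
    by_cases hr : r ∣ i.natDegree
    · have : ¬ r ∣ a.natDegree := by
        intro h2
        apply h
        rw [natDegree_mul hi.ne_zero ha]
        exact dvd_add hr h2
      obtain ⟨g, hg, hga, hgr⟩ := ih this
      exact ⟨g, hg, hga.mul_left _, hgr⟩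
    · exact ⟨i, hi, dvd_mul_right _ _, hr⟩

theorem dvd_iff_pow (l q k : ℕ) (hq : 1 ≤ q) : l ∣ q ^ k - 1 ↔ (q : ZMod l) ^ k = 1 := by
  have h1 : 1 ≤ q ^ k := Nat.one_le_pow _ _ hq
  rw [← ZMod.natCast_eq_zero_iff, Nat.cast_sub h1, sub_eq_zero]
  push_cast
  rfl

theorem case_ne {F : Type*} [Field F] [Finite F] (d : ℕ) (hd : 2 ≤ d) (α β : F) (hne : α ≠ β)
    (r : ℕ) (hr : r.Prime) (hrd : ¬ r ∣ d)
    (hord : ∀ l : ℕ, l.Prime → l ∣ d → ¬ l ∣ Nat.card F → r ∣ orderOf (Nat.card F : ZMod l))
    (M : ℕ) :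
    ∃ n : ℕ, 1 ≤ n ∧ ∃ g : F[X], Irreducible g ∧ g ∣ P d α n - C β ∧ M < g.natDegree ∧
      Nat.Coprime d (Nat.card F ^ g.natDegree - 1) := by
  have hq : 1 ≤ Nat.card F := Nat.card_pos
  obtain ⟨m, hm⟩ : ∃ m, (Nat.card F ^ M).factorial = m + 1 :=
    ⟨_, (Nat.succ_pred_eq_of_pos (Nat.factorial_pos _)).symm⟩
  have hdeg : (P d α (m + 1) - C β).natDegree = d ^ m := by
    rw [natDegree_sub_C, natDegree_P d hd]
  obtain ⟨g, hg, hgQ, hgr⟩ := exists_factor r (P d α (m + 1) - C β)
    (by rw [hdeg]; exact fun h => hrd (hr.dvd_of_dvd_pow h))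
  have hk0 : g.natDegree ≠ 0 := fun h => hgr (by rw [h]; exact dvd_zero _)
  have hcop : Nat.Coprime d (Nat.card F ^ g.natDegree - 1) := by
    apply Nat.coprime_of_dvd
    intro l hl hld hl2
    have hpow := (dvd_iff_pow l _ _ hq).1 hl2
    have hlq : ¬ l ∣ Nat.card F := by
      intro h
      have := Fact.mk hl
      rw [(ZMod.natCast_eq_zero_iff _ _).2 h, zero_pow hk0] at hpow
      exact zero_ne_one hpow
    exact hgr ((hord l hl hld hlq).trans (orderOf_dvd_of_pow_eq_one hpow))
  refine ⟨m + 1, by omega, g, hg, hgQ, ?_, hcop⟩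
  by_contra hle
  have hle : g.natDegree ≤ M := by omega
  have := Fact.mk hg
  let pb := AdjoinRoot.powerBasis hg.ne_zero
  have : Module.Finite F (AdjoinRoot g) := pb.finite
  have : Finite (AdjoinRoot g) := Module.finite_of_finite F
  have hcard : Nat.card (AdjoinRoot g) = Nat.card F ^ g.natDegree := by
    rw [Module.natCard_eq_pow_finrank (K := F), pb.finrank]; rfl
  have h0 : aeval (AdjoinRoot.root g) (P d α (m + 1) - C β) = 0 := by
    rw [AdjoinRoot.aeval_eq]; exact AdjoinRoot.mk_eq_zero.2 hgQ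
  rw [map_sub, aeval_P, aeval_C, iter_id d (by omega) (by rw [hcard]; exact hcop) _ _ _
    (by rw [hcard, ← hm]; exact Nat.factorial_dvd_factorial (Nat.pow_le_pow_right hq hle)),
    sub_eq_zero] at h0
  exact hne ((algebraMap F (AdjoinRoot g)).injective h0)

theorem case_eq {F : Type*} [Field F] [Finite F] (d : ℕ) (hd : 2 ≤ d)
    (hc : Nat.Coprime d (Nat.card F - 1)) (α : F) (M : ℕ) :
    ∃ n : ℕ, 1 ≤ n ∧ ∃ g : F[X], Irreducible g ∧ g ∣ P d α n - C α ∧ M < g.natDegree ∧
      Nat.Coprime d (Nat.card F ^ g.natDegree - 1) := by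
  have hq : 1 ≤ Nat.card F := Nat.card_pos
  set k := d.factorial * M + 1 with hk
  have hkM : M < k := by
    have := Nat.factorial_pos d
    have : M ≤ d.factorial * M := Nat.le_mul_of_pos_left _ this
    omega
  have hcop : Nat.Coprime d (Nat.card F ^ k - 1) := by
    apply Nat.coprime_of_dvd
    intro l hl hld hl2
    have hpow := (dvd_iff_pow l _ _ hq).1 hl2
    have := Fact.mk hl
    have hq0 : (Nat.card F : ZMod l) ≠ 0 := by
      intro h
      rw [h, zero_pow (by omega)] at hpow
      exact zero_ne_one hpow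
    have h1 : (Nat.card F : ZMod l) ^ (l - 1) = 1 := ZMod.pow_card_sub_one_eq_one hq0
    obtain ⟨t, ht⟩ : l - 1 ∣ d.factorial :=
      Nat.dvd_factorial (by have := hl.two_le; omega)
        (by have := Nat.le_of_dvd (by omega) hld; omega)
    rw [hk, pow_succ, ht, mul_assoc, pow_mul, h1, one_pow, one_mul] at hpow
    have h2 : l ∣ Nat.card F ^ 1 - 1 := (dvd_iff_pow l _ 1 hq).2 (by simpa using hpow)
    rw [pow_one] at h2
    exact hl.one_lt.ne' (Nat.eq_one_of_dvd_coprimes hc hld h2)
  obtain ⟨p, hp⟩ := CharP.exists F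
  have := Fact.mk (CharP.char_is_prime F p)
  have : NeZero k := ⟨by omega⟩
  let K := FiniteField.Extension F p k
  have : Finite K := Module.finite_of_finite F
  have hcard : Nat.card K = Nat.card F ^ k := FiniteField.natCard_extension F p k
  obtain ⟨l, hl⟩ := Field.exists_primitive_element F K
  have hint : IsIntegral F l := Algebra.IsIntegral.isIntegral l
  have hdeg : (minpoly F l).natDegree = k := by
    rw [(Field.primitive_element_iff_minpoly_natDegree_eq F l).1 hl]
    exact FiniteField.finrank_extension F p k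
  refine ⟨(Nat.card K).factorial, Nat.factorial_pos _, minpoly F l, minpoly.irreducible hint, ?_,
    by rw [hdeg]; exact hkM, by rw [hdeg]; exact hcop⟩
  apply minpoly.dvd
  rw [map_sub, aeval_P, aeval_C, iter_id d (by omega) (by rw [hcard]; exact hcop) _ _ _ dvd_rfl,
    sub_self]

theorem case_char {F : Type*} [Field F] [Finite F] (d : ℕ) (hd : 2 ≤ d)
    (hc : Nat.Coprime d (Nat.card F - 1)) (α β : F) (hdF : (d : F) = 0)
    (r : ℕ) (hr : r.Prime) (hrd : r ∣ d)
    (hord : ∀ l : ℕ, l.Prime → l ∣ d → ¬ l ∣ Nat.card F → r ∣ orderOf (Nat.card F : ZMod l))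
    (M : ℕ) :
    ∃ n : ℕ, 1 ≤ n ∧ ∃ g : F[X], Irreducible g ∧ g ∣ P d α n - C β ∧ M < g.natDegree ∧
      Nat.Coprime d (Nat.card F ^ g.natDegree - 1) := by
  have hq : 1 ≤ Nat.card F := Nat.card_pos
  set N := (Nat.card F ^ (M + 1)).factorial with hN
  have hN0 : N ≠ 0 := Nat.factorial_ne_zero _
  have hdeg : (P d α (N + 1) - C β).natDegree = d ^ N := by
    rw [natDegree_sub_C, natDegree_P d hd]
  have hroot : IsRoot (P d α (N + 1) - C β) (β - α ^ d) := by
    have h1 := aeval_P d α (β - α ^ d) (N + 1)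
    rw [Function.iterate_succ_apply', iter_id d (by omega) hc _ _ N
      (Nat.factorial_dvd_factorial (Nat.le_self_pow (by omega) _))] at h1
    rw [IsRoot.def, eval_sub, eval_C, ← coe_aeval_eq_eval, h1]
    simp
  obtain ⟨R, hR⟩ := dvd_iff_isRoot.2 hroot
  have hder : derivative (P d α (N + 1) - C β) = 1 := by
    show derivative (P d α N ^ d + X - C β) = 1
    rw [derivative_sub, derivative_add, derivative_pow, derivative_C, derivative_X, hdF]
    simp
  have hR1 : R.eval (β - α ^ d) = 1 := by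
    have h1 := congrArg (eval (β - α ^ d)) hder
    rw [hR, derivative_mul, derivative_X_sub_C, one_mul, eval_add, eval_mul, eval_sub, eval_X,
      eval_C, sub_self, zero_mul, add_zero, eval_one] at h1
    exact h1
  have hR0 : R ≠ 0 := by
    intro h; rw [h] at hR1; simp at hR1
  have hRdeg : 1 + R.natDegree = d ^ N := by
    rw [← hdeg, hR, natDegree_mul (X_sub_C_ne_zero _) hR0, natDegree_X_sub_C]
  obtain ⟨g, hg, hgR, hgr⟩ := exists_factor r R (by
    intro h
    have h2 : r ∣ 1 + R.natDegree := by rw [hRdeg]; exact hrd.trans (dvd_pow_self _ hN0)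
    exact hr.one_lt.ne' (Nat.dvd_one.1 ((Nat.dvd_add_left h).1 h2)))
  have hgQ : g ∣ P d α (N + 1) - C β := by rw [hR]; exact hgR.mul_left _
  have hk0 : g.natDegree ≠ 0 := fun h => hgr (by rw [h]; exact dvd_zero _)
  have hcop : Nat.Coprime d (Nat.card F ^ g.natDegree - 1) := by
    apply Nat.coprime_of_dvd
    intro l hl hld hl2
    have hpow := (dvd_iff_pow l _ _ hq).1 hl2
    have hlq : ¬ l ∣ Nat.card F := by
      intro h
      have := Fact.mk hl
      rw [(ZMod.natCast_eq_zero_iff _ _).2 h, zero_pow hk0] at hpow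
      exact zero_ne_one hpow
    exact hgr ((hord l hl hld hlq).trans (orderOf_dvd_of_pow_eq_one hpow))
  refine ⟨N + 1, by omega, g, hg, hgQ, ?_, hcop⟩
  by_contra hle
  have hle : g.natDegree ≤ M + 1 := by omega
  have := Fact.mk hg
  let pb := AdjoinRoot.powerBasis hg.ne_zero
  have : Module.Finite F (AdjoinRoot g) := pb.finite
  have : Finite (AdjoinRoot g) := Module.finite_of_finite F
  have hcard : Nat.card (AdjoinRoot g) = Nat.card F ^ g.natDegree := by
    rw [Module.natCard_eq_pow_finrank (K := F), pb.finrank]; rfl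
  have h0 : aeval (AdjoinRoot.root g) (P d α (N + 1) - C β) = 0 := by
    rw [AdjoinRoot.aeval_eq]; exact AdjoinRoot.mk_eq_zero.2 hgQ
  have h0' : aeval (AdjoinRoot.root g) R = 0 := by
    rw [AdjoinRoot.aeval_eq]; exact AdjoinRoot.mk_eq_zero.2 hgR
  rw [map_sub, aeval_P, aeval_C, Function.iterate_succ_apply',
    iter_id d (by omega) (by rw [hcard]; exact hcop) _ _ N
    (by rw [hcard]; exact Nat.factorial_dvd_factorial (Nat.pow_le_pow_right hq hle))] at h0
  have h3 : AdjoinRoot.root g = algebraMap F (AdjoinRoot g) (β - α ^ d) := by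
    rw [map_sub, map_pow]; linear_combination h0
  rw [h3, aeval_algebraMap_apply, coe_aeval_eq_eval, hR1, map_one] at h0'
  exact one_ne_zero h0'

/-- Let `F` be a finite field with `q` elements and characteristic `p`, let `d ≥ 2` be no power of
`p` with `gcd(d, q - 1) = 1`, and let `α, β ∈ F`. Suppose `d = l ^ a * p ^ b` with `l` prime, or more
generally some prime `r` divides the order of `q` modulo every prime `l ∣ d` with `l ≠ p`. Then for
every `M` some `P_{n,α} - β` (`n ≥ 1`) has an irreducible factor of degree `k > M` with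
`gcd(d, q ^ k - 1) = 1`. -/
theorem result (F : Type) [Field F] [Finite F] (p : ℕ) [CharP F p] (d : ℕ) (hd : 2 ≤ d)
    (hdp : ∀ j : ℕ, d ≠ p ^ j) (hc : Nat.Coprime d (Nat.card F - 1)) (α β : F)
    (h : (∃ l a b : ℕ, l.Prime ∧ d = l ^ a * p ^ b) ∨ ∃ r : ℕ, r.Prime ∧
      ∀ l : ℕ, l.Prime → l ∣ d → l ≠ p → r ∣ orderOf (Nat.card F : ZMod l))
    (M : ℕ) :
    ∃ n : ℕ, 1 ≤ n ∧ ∃ g : F[X], Irreducible g ∧ g ∣ P d α n - C β ∧ M < g.natDegree ∧
      Nat.Coprime d (Nat.card F ^ g.natDegree - 1) := by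
  by_cases hab : α = β
  · subst hab; exact case_eq d hd hc α M
  have hq : 1 ≤ Nat.card F := Nat.card_pos
  have hpp : p.Prime := CharP.char_is_prime F p
  have := Fintype.ofFinite F
  obtain ⟨e, -, he⟩ := FiniteField.card F p
  rw [← Nat.card_eq_fintype_card] at he
  have hpq : p ∣ Nat.card F := by rw [he]; exact dvd_pow_self _ e.ne_zero
  have key : ∀ r : ℕ, r.Prime →
      (∀ l : ℕ, l.Prime → l ∣ d → l ≠ p → r ∣ orderOf (Nat.card F : ZMod l)) →
      ∃ n : ℕ, 1 ≤ n ∧ ∃ g : F[X], Irreducible g ∧ g ∣ P d α n - C β ∧ M < g.natDegree ∧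
        Nat.Coprime d (Nat.card F ^ g.natDegree - 1) := by
    intro r hr hord
    have hord' : ∀ l : ℕ, l.Prime → l ∣ d → ¬ l ∣ Nat.card F →
        r ∣ orderOf (Nat.card F : ZMod l) :=
      fun l hl hld hlq => hord l hl hld (fun h => hlq (h ▸ hpq))
    by_cases hrd : r ∣ d
    · have hrp : r = p := by
        by_contra hrp
        have := Fact.mk hr
        have hrq : ¬ r ∣ Nat.card F := by
          rw [he]
          exact fun h => hrp ((Nat.prime_dvd_prime_iff_eq hr hpp).1 (hr.dvd_of_dvd_pow h))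
        have hq0 : (Nat.card F : ZMod r) ≠ 0 := fun h => hrq ((ZMod.natCast_eq_zero_iff _ _).1 h)
        have h1 : orderOf (Nat.card F : ZMod r) ∣ r - 1 :=
          orderOf_dvd_of_pow_eq_one (ZMod.pow_card_sub_one_eq_one hq0)
        have h2 := Nat.le_of_dvd (by have := hr.two_le; omega) ((hord r hr hrd hrp).trans h1)
        have := hr.two_le
        omega
      exact case_char d hd hc α β ((CharP.cast_eq_zero_iff F p d).2 (hrp ▸ hrd)) r hr hrd hord' M
    · exact case_ne d hd α β hab r hr hrd hord' M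
  rcases h with ⟨l, a, b, hl, hdl⟩ | ⟨r, hr, hord⟩
  · have ha : a ≠ 0 := by
      rintro rfl
      exact hdp b (by rw [hdl, pow_zero, one_mul])
    have hld : l ∣ d := by rw [hdl]; exact (dvd_pow_self _ ha).mul_right _
    have h2 : orderOf (Nat.card F : ZMod l) ≠ 1 := by
      intro h
      have h3 : l ∣ Nat.card F ^ 1 - 1 :=
        (dvd_iff_pow l _ 1 hq).2 (by rw [pow_one]; exact orderOf_eq_one_iff.1 h)
      rw [pow_one] at h3
      exact hl.one_lt.ne' (Nat.eq_one_of_dvd_coprimes hc hld h3)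
    obtain ⟨r, hr, hro⟩ := Nat.exists_prime_and_dvd h2
    refine key r hr ?_
    intro l' hl' hd' hl'p
    rw [hdl] at hd'
    rcases (Nat.Prime.dvd_mul hl').1 hd' with h4 | h4
    · have := (Nat.prime_dvd_prime_iff_eq hl' hl).1 (hl'.dvd_of_dvd_pow h4)
      subst this
      exact hro
    · exact absurd ((Nat.prime_dvd_prime_iff_eq hl' hpp).1 (hl'.dvd_of_dvd_pow h4)) hl'p
  · exact key r hr hord

end Pool.Agent.Results.MP_705328_nt.PrimePowerDegree
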